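import Mathlib

/-!
# EHP: the mean function of the segment `[0,4]` and of a finite family of points

`Nv r = (1/π) ∫_0^π log max (r, 2 + 2 cos θ) dθ`, `Nz a r = (1/n) ∑_j log max (r, |a_j|)`.
-/

set_option autoImplicit false

open Real MeasureTheory Set
open scoped Interval

noncomputable section

namespace Pool.Agent.H56.EH

/-- mean over `|z| = r` of the Green function of `[0,4]` -/
def Nv (r : ℝ) : ℝ := (1 / π) * ∫ θ in (0 : ℝ)..π, Real.log (max r (2 + 2 * Real.cos θ))

/-- mean over `|z| = r` of `(1/n) log |∏ (z - a_j)|` -/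
def Nz {n : ℕ} (a : Fin n → ℂ) (r : ℝ) : ℝ := (1 / n) * ∑ j, Real.log (max r ‖a j‖)

theorem nv_cos_nonneg (θ : ℝ) : 0 ≤ 2 + 2 * Real.cos θ := by
  have := Real.neg_one_le_cos θ
  linarith

theorem nv_cos_le (θ : ℝ) : 2 + 2 * Real.cos θ ≤ 4 := by
  have := Real.cos_le_one θ
  linarith

theorem nv_cont {r : ℝ} (hr : 0 < r) :
    Continuous fun θ : ℝ => Real.log (max r (2 + 2 * Real.cos θ)) := by
  refine Continuous.log (by fun_prop) fun θ => ?_
  exact (lt_of_lt_of_le hr (le_max_left _ _)).ne'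

theorem nv_intble {r : ℝ} (hr : 0 < r) (a b : ℝ) :
    IntervalIntegrable (fun θ : ℝ => Real.log (max r (2 + 2 * Real.cos θ))) volume a b :=
  (nv_cont hr).intervalIntegrable _ _

theorem Nv_of_four_le {r : ℝ} (hr : 4 ≤ r) : Nv r = Real.log r := by
  have h : ∀ θ : ℝ, Real.log (max r (2 + 2 * Real.cos θ)) = Real.log r := by
    intro θ
    rw [max_eq_left ((nv_cos_le θ).trans hr)]
  unfold Nv
  simp only [h, intervalIntegral.integral_const, sub_zero, smul_eq_mul]
  field_simp

theorem log_le_Nv {r : ℝ} (hr : 0 < r) : Real.log r ≤ Nv r := by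
  have h : ∫ θ in (0 : ℝ)..π, Real.log r ≤ ∫ θ in (0 : ℝ)..π, Real.log (max r (2 + 2 * Real.cos θ)) := by
    refine intervalIntegral.integral_mono_on Real.pi_pos.le (by simp) (nv_intble hr _ _) ?_
    intro θ _
    exact Real.log_le_log hr (le_max_left _ _)
  rw [intervalIntegral.integral_const, sub_zero, smul_eq_mul] at h
  unfold Nv
  have hπ := Real.pi_pos
  rw [one_div, inv_mul_eq_div, le_div_iff₀ hπ]
  linarith

theorem log_lt_Nv {r : ℝ} (hr : 0 < r) (hr4 : r < 4) : Real.log r < Nv r := by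
  have h : ∫ θ in (0 : ℝ)..π, Real.log r < ∫ θ in (0 : ℝ)..π, Real.log (max r (2 + 2 * Real.cos θ)) := by
    refine intervalIntegral.integral_lt_integral_of_continuousOn_of_le_of_exists_lt Real.pi_pos
      continuousOn_const (nv_cont hr).continuousOn ?_ ⟨0, ⟨le_rfl, Real.pi_pos.le⟩, ?_⟩
    · intro θ _
      exact Real.log_le_log hr (le_max_left _ _)
    · rw [Real.cos_zero]
      refine Real.log_lt_log hr (lt_of_lt_of_le ?_ (le_max_right _ _))
      linarith
  rw [intervalIntegral.integral_const, sub_zero, smul_eq_mul] at h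
  unfold Nv
  have hπ := Real.pi_pos
  rw [one_div, inv_mul_eq_div, lt_div_iff₀ hπ]
  linarith

theorem log_max_mono {r r' x : ℝ} (hr : 0 < r) (h : r ≤ r') :
    Real.log (max r x) ≤ Real.log (max r' x) :=
  Real.log_le_log (lt_of_lt_of_le hr (le_max_left _ _)) (max_le_max_right _ h)

theorem log_max_lip {r r' x : ℝ} (hr : 0 < r) (h : r ≤ r') :
    Real.log (max r' x) - Real.log (max r x) ≤ Real.log r' - Real.log r := by
  have hr' : 0 < r' := hr.trans_le h
  rcases le_total x r with hx | hx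
  · rw [max_eq_left hx, max_eq_left (hx.trans h)]
  · rw [max_eq_right hx]
    have hx0 : 0 < x := hr.trans_le hx
    rcases le_total x r' with hx' | hx'
    · rw [max_eq_left hx']
      have := Real.log_le_log hr hx
      linarith
    · rw [max_eq_right hx']
      have := Real.log_le_log hr h
      linarith

theorem Nv_mono {r r' : ℝ} (hr : 0 < r) (h : r ≤ r') : Nv r ≤ Nv r' := by
  unfold Nv
  refine mul_le_mul_of_nonneg_left ?_ (by positivity)
  refine intervalIntegral.integral_mono_on Real.pi_pos.le (nv_intble hr _ _)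
    (nv_intble (hr.trans_le h) _ _) ?_
  intro θ _
  exact log_max_mono hr h

theorem Nv_lip {r r' : ℝ} (hr : 0 < r) (h : r ≤ r') : Nv r' - Nv r ≤ Real.log r' - Real.log r := by
  have hr' : 0 < r' := hr.trans_le h
  have h1 : ∫ θ in (0 : ℝ)..π, (Real.log (max r' (2 + 2 * Real.cos θ)) -
      Real.log (max r (2 + 2 * Real.cos θ))) ≤ ∫ θ in (0 : ℝ)..π, (Real.log r' - Real.log r) := by
    refine intervalIntegral.integral_mono_on Real.pi_pos.le
      ((nv_intble hr' _ _).sub (nv_intble hr _ _)) (by simp) ?_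
    intro θ _
    exact log_max_lip hr h
  rw [intervalIntegral.integral_sub (nv_intble hr' _ _) (nv_intble hr _ _),
    intervalIntegral.integral_const, sub_zero, smul_eq_mul] at h1
  unfold Nv
  have hπ := Real.pi_pos
  rw [← mul_sub, one_div, inv_mul_eq_div, div_le_iff₀ hπ]
  linarith

theorem Nz_mono {n : ℕ} (a : Fin n → ℂ) {r r' : ℝ} (hr : 0 < r) (h : r ≤ r') :
    Nz a r ≤ Nz a r' := by
  unfold Nz
  refine mul_le_mul_of_nonneg_left (Finset.sum_le_sum fun j _ => ?_) (by positivity)
  exact log_max_mono hr h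

theorem Nz_lip {n : ℕ} (hn : 0 < n) (a : Fin n → ℂ) {r r' : ℝ} (hr : 0 < r) (h : r ≤ r') :
    Nz a r' - Nz a r ≤ Real.log r' - Real.log r := by
  unfold Nz
  have hn' : (0 : ℝ) < n := by exact_mod_cast hn
  rw [← mul_sub, ← Finset.sum_sub_distrib, one_div, inv_mul_eq_div, div_le_iff₀ hn']
  refine (Finset.sum_le_sum (g := fun _ => Real.log r' - Real.log r) fun j _ => log_max_lip hr h).trans ?_
  rw [Finset.sum_const, Finset.card_univ, Fintype.card_fin, nsmul_eq_mul]
  linarith

theorem log_le_Nz {n : ℕ} (hn : 0 < n) (a : Fin n → ℂ) {r : ℝ} (hr : 0 < r) :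
    Real.log r ≤ Nz a r := by
  unfold Nz
  have hn' : (0 : ℝ) < n := by exact_mod_cast hn
  rw [one_div, inv_mul_eq_div, le_div_iff₀ hn']
  have h : ∑ _j : Fin n, Real.log r ≤ ∑ j, Real.log (max r ‖a j‖) :=
    Finset.sum_le_sum fun j _ => Real.log_le_log hr (le_max_left _ _)
  rw [Finset.sum_const, Finset.card_univ, Fintype.card_fin, nsmul_eq_mul] at h
  linarith

theorem Nz_eq_log {n : ℕ} (hn : 0 < n) (a : Fin n → ℂ) {r : ℝ} (h : ∀ j, ‖a j‖ ≤ r) :
    Nz a r = Real.log r := by
  unfold Nz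
  have hn' : (n : ℝ) ≠ 0 := by
    have : (0 : ℝ) < n := by exact_mod_cast hn
    exact this.ne'
  have h1 : ∑ j, Real.log (max r ‖a j‖) = ∑ _j : Fin n, Real.log r :=
    Finset.sum_congr rfl fun j _ => by rw [max_eq_left (h j)]
  rw [h1, Finset.sum_const, Finset.card_univ, Fintype.card_fin, nsmul_eq_mul]
  field_simp

theorem nv_intble_cos (a b : ℝ) :
    IntervalIntegrable (fun θ : ℝ => Real.log (2 + 2 * Real.cos θ)) volume a b := by
  have h : AnalyticOnNhd ℝ (fun θ : ℝ => 2 + 2 * Real.cos θ) [[a, b]] := by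
    intro θ _
    exact analyticAt_const.add (analyticAt_const.mul Real.analyticAt_cos)
  exact h.meromorphicOn.intervalIntegrable_log

theorem nv_intble_sin (a b : ℝ) :
    IntervalIntegrable (fun θ : ℝ => Real.log (Real.sin ((π - θ) / 2))) volume a b := by
  have h : AnalyticOnNhd ℝ (fun θ : ℝ => Real.sin ((π - θ) / 2)) [[a, b]] := by
    intro θ _
    exact Real.analyticAt_sin.comp ((analyticAt_const.sub analyticAt_id).div_const)
  exact h.meromorphicOn.intervalIntegrable_log

/-- the mean of `log (2 + 2 cos θ)` vanishes -/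
theorem integral_log_cos : ∫ θ in (0 : ℝ)..π, Real.log (2 + 2 * Real.cos θ) = 0 := by
  have h1 : ∀ θ ∈ Ioo (0 : ℝ) π, Real.log (2 + 2 * Real.cos θ) =
      2 * Real.log 2 + 2 * Real.log (Real.sin ((π - θ) / 2)) := by
    intro θ hθ
    have h2 : 0 < Real.sin ((π - θ) / 2) := by
      apply Real.sin_pos_of_pos_of_lt_pi <;> linarith [hθ.1, hθ.2]
    have h3 : 2 + 2 * Real.cos θ = 2 ^ 2 * Real.sin ((π - θ) / 2) ^ 2 := by
      have h4 : Real.sin ((π - θ) / 2) = Real.cos (θ / 2) := by
        rw [← Real.sin_pi_div_two_sub]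
        congr 1
        ring
      rw [h4, Real.cos_sq]
      have : 2 * (θ / 2) = θ := by ring
      rw [this]
      ring
    rw [h3, Real.log_mul (by norm_num) (by positivity), Real.log_pow, Real.log_pow]
    push_cast
    ring
  have h5 : ∫ θ in (0 : ℝ)..π, Real.log (2 + 2 * Real.cos θ) =
      ∫ θ in (0 : ℝ)..π, (2 * Real.log 2 + 2 * Real.log (Real.sin ((π - θ) / 2))) := by
    rw [intervalIntegral.integral_of_le Real.pi_pos.le, intervalIntegral.integral_of_le Real.pi_pos.le,
      integral_Ioc_eq_integral_Ioo, integral_Ioc_eq_integral_Ioo]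
    exact setIntegral_congr_fun measurableSet_Ioo h1
  rw [h5, intervalIntegral.integral_add (by simp) ((nv_intble_sin _ _).const_mul 2),
    intervalIntegral.integral_const, intervalIntegral.integral_const_mul]
  have h9 : ∫ θ in (0 : ℝ)..π, Real.log (Real.sin ((π - θ) / 2)) =
      2 * ∫ θ in (0 : ℝ)..(π / 2), Real.log (Real.sin θ) := by
    have e1 : ∀ θ : ℝ, (π - θ) / 2 = π / 2 - θ / 2 := fun θ => by ring
    simp only [e1]
    rw [intervalIntegral.integral_comp_sub_div (fun x => Real.log (Real.sin x)) (by norm_num : (2:ℝ) ≠ 0)]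
    simp
  rw [h9, integral_log_sin_zero_pi_div_two]
  simp only [sub_zero, smul_eq_mul]
  ring

theorem Nv_nonneg {r : ℝ} (hr : 0 < r) : 0 ≤ Nv r := by
  have h : ∫ θ in (0 : ℝ)..π, Real.log (2 + 2 * Real.cos θ) ≤
      ∫ θ in (0 : ℝ)..π, Real.log (max r (2 + 2 * Real.cos θ)) := by
    rw [intervalIntegral.integral_of_le Real.pi_pos.le, intervalIntegral.integral_of_le Real.pi_pos.le,
      integral_Ioc_eq_integral_Ioo, integral_Ioc_eq_integral_Ioo]
    refine setIntegral_mono_on ?_ ?_ measurableSet_Ioo ?_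
    · have := (nv_intble_cos 0 π).1
      exact this.mono_set Ioo_subset_Ioc_self
    · have := (nv_intble hr 0 π).1
      exact this.mono_set Ioo_subset_Ioc_self
    · intro θ hθ
      have h1 : -1 < Real.cos θ := by
        have := Real.cos_lt_cos_of_nonneg_of_le_pi hθ.1.le le_rfl hθ.2
        rwa [Real.cos_pi] at this
      exact Real.log_le_log (by linarith) (le_max_right _ _)
  rw [integral_log_cos] at h
  unfold Nv
  have := Real.pi_pos
  positivity

/-- `Nv r - log r` is small compared with `log 4 - log r` near `4` -/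
theorem Nv_sub_log_le {r : ℝ} (hr : 0 < r) (hr4 : r ≤ 4) :
    Nv r - Real.log r ≤ Real.arccos (r / 2 - 1) / π * (Real.log 4 - Real.log r) := by
  have hπ := Real.pi_pos
  set θ₀ := Real.arccos (r / 2 - 1) with hθ₀
  have h0 : 0 ≤ θ₀ := Real.arccos_nonneg _
  have h1 : θ₀ ≤ π := Real.arccos_le_pi _
  have hcos : Real.cos θ₀ = r / 2 - 1 := Real.cos_arccos (by linarith) (by linarith)
  have h2 : ∫ θ in (0 : ℝ)..π, (Real.log (max r (2 + 2 * Real.cos θ)) - Real.log r) ≤
      θ₀ * (Real.log 4 - Real.log r) := by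
    have hi : ∀ a b : ℝ, IntervalIntegrable
        (fun θ : ℝ => Real.log (max r (2 + 2 * Real.cos θ)) - Real.log r) volume a b :=
      fun a b => (nv_intble hr a b).sub (by simp)
    rw [← intervalIntegral.integral_add_adjacent_intervals (hi 0 θ₀) (hi θ₀ π)]
    have h3 : ∫ θ in (0 : ℝ)..θ₀, (Real.log (max r (2 + 2 * Real.cos θ)) - Real.log r) ≤
        ∫ θ in (0 : ℝ)..θ₀, (Real.log 4 - Real.log r) := by
      refine intervalIntegral.integral_mono_on h0 (hi _ _) (by simp) ?_
      intro θ _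
      have := Real.log_le_log (lt_of_lt_of_le hr (le_max_left _ _)) (max_le hr4 (nv_cos_le θ))
      linarith
    have h4 : ∫ θ in θ₀..π, (Real.log (max r (2 + 2 * Real.cos θ)) - Real.log r) = 0 := by
      have h5 : ∫ θ in θ₀..π, (Real.log (max r (2 + 2 * Real.cos θ)) - Real.log r) =
          ∫ θ in θ₀..π, (0 : ℝ) := by
        refine intervalIntegral.integral_congr ?_
        intro θ hθ
        rw [uIcc_of_le h1] at hθ
        have h6 : Real.cos θ ≤ Real.cos θ₀ := Real.cos_le_cos_of_nonneg_of_le_pi h0 hθ.2 hθ.1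
        simp only
        rw [max_eq_left (by linarith), sub_self]
      rw [h5, intervalIntegral.integral_zero]
    rw [h4, add_zero]
    refine h3.trans (le_of_eq ?_)
    rw [intervalIntegral.integral_const, sub_zero, smul_eq_mul]
  rw [intervalIntegral.integral_sub (nv_intble hr _ _) (by simp), intervalIntegral.integral_const,
    sub_zero, smul_eq_mul] at h2
  unfold Nv
  have hA : θ₀ / π * (Real.log 4 - Real.log r) = θ₀ * (Real.log 4 - Real.log r) / π := by ring
  rw [hA, le_div_iff₀ hπ]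
  have h7 : (1 / π * ∫ θ in (0 : ℝ)..π, Real.log (max r (2 + 2 * Real.cos θ))) * π =
      ∫ θ in (0 : ℝ)..π, Real.log (max r (2 + 2 * Real.cos θ)) := by
    field_simp
  rw [sub_mul, h7]
  linarith

end Pool.Agent.H56.EH
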