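import Pool.Agent.H56.EH.Pos
import Pool.Agent.H24.EH.Defs

/-!
# EHP: `touch_circle` in the form of `Pool.Agent.H24.EH.Defs`
-/

set_option autoImplicit false

noncomputable section

namespace Pool.Agent.H56.EH

open Pool.Agent.H24.EH

/-- `|Q| ≥ 1` on the touching circle -/
theorem touch_circle {n : ℕ} {a : Fin n → ℂ} {p : ℝ} (h : Touch a p) (z : ℂ) (hz : ‖z‖ = 4 * p) :
    1 ≤ ‖∏ j, (z - a j)‖ := by
  rw [norm_prod]
  exact ge_one h.hn a h.le (by linarith [h.p0]) h.eq z hz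

/-- the level situation gives the touching situation -/
theorem Lev.touch {n : ℕ} {a : Fin n → ℂ} {s r₀ : ℝ} (H : Lev n a s r₀) : Touch a (r₀ / 4) := by
  have h4 : 4 * (r₀ / 4) = r₀ := by ring
  refine ⟨H.hn, by linarith [H.hr₀], by linarith [H.hr₀4], H.hle, ?_, H.hlt4, ?_⟩
  · rw [h4]
    exact H.htouch
  · refine lt_of_le_of_lt H.h0 ?_
    have hn : (0 : ℝ) < n := by exact_mod_cast H.hn
    rw [Real.exp_lt_one_iff]
    have := mul_pos hn H.hs
    linarith

/-- `|Q| ≥ 1` on `|z| ≥ 4` -/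
theorem touch_outside {n : ℕ} {a : Fin n → ℂ} {p : ℝ} (h : Touch a p) (z : ℂ) (hz : 4 ≤ ‖z‖) :
    1 ≤ ‖∏ j, (z - a j)‖ := by
  rw [norm_prod]
  exact ge_one h.hn a h.le (by linarith) (Nz_eq_Nv h.hn a (fun j => (h.a4 j).le) hz) z rfl

/-- the sets `{|Q| ≤ e^{-nd}}` inside / outside have positive distance from the circle -/
theorem touch_gap {n : ℕ} {a : Fin n → ℂ} {p : ℝ} (h : Touch a p) {d : ℝ} (hd : 0 < d) :
    ∃ δ, 0 < δ ∧ ∀ z : ℂ, ‖∏ j, (z - a j)‖ ≤ Real.exp (-(n * d)) →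
      ‖z‖ / 4 ≤ p - δ ∨ (p + δ ≤ ‖z‖ / 4 ∧ ‖z‖ / 4 ≤ 1) := by
  have hn : (0 : ℝ) < n := by exact_mod_cast h.hn
  have hlt : Real.exp (-(n * d)) < 1 := by
    rw [Real.exp_lt_one_iff]
    have := mul_pos hn hd
    linarith
  set S : Set ℂ := {z : ℂ | ‖∏ j, (z - a j)‖ ≤ Real.exp (-(n * d))} with hS
  have hS4 : ∀ z ∈ S, ‖z‖ < 4 := by
    intro z hz
    by_contra hcon
    push Not at hcon
    have h1 := touch_outside h z hcon
    have h2 : ‖∏ j, (z - a j)‖ ≤ Real.exp (-(n * d)) := hz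
    linarith
  have hScl : IsClosed S := by
    have hc : Continuous fun z : ℂ => ‖∏ j, (z - a j)‖ := by
      refine Continuous.norm ?_
      exact continuous_finsetProd _ fun j _ => continuous_id.sub continuous_const
    exact isClosed_le hc continuous_const
  have hSc : IsCompact S := by
    refine (isCompact_closedBall (0 : ℂ) 4).of_isClosed_subset hScl ?_
    intro z hz
    rw [mem_closedBall_zero_iff]
    exact (hS4 z hz).le
  have hne : ∀ z ∈ S, ‖z‖ ≠ 4 * p := by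
    intro z hz hcon
    have h1 := touch_circle h z hcon
    have h2 : ‖∏ j, (z - a j)‖ ≤ Real.exp (-(n * d)) := hz
    linarith
  rcases S.eq_empty_or_nonempty with he | hne'
  · refine ⟨1, one_pos, fun z hz => ?_⟩
    have : z ∈ S := hz
    rw [he] at this
    exact absurd this (Set.notMem_empty z)
  · obtain ⟨w, hw, hmin⟩ := hSc.exists_isMinOn hne' (f := fun z : ℂ => |‖z‖ / 4 - p|)
      (by fun_prop)
    have hpos : 0 < |‖w‖ / 4 - p| := by
      rw [abs_pos]
      intro h0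
      apply hne w hw
      linarith
    refine ⟨|‖w‖ / 4 - p|, hpos, fun z hz => ?_⟩
    have h1 : |‖w‖ / 4 - p| ≤ |‖z‖ / 4 - p| := hmin (show z ∈ S from hz)
    have h2 := hS4 z hz
    rcases le_total (‖z‖ / 4) p with h3 | h3
    · left
      rw [abs_of_nonpos (by linarith : ‖z‖ / 4 - p ≤ 0)] at h1
      linarith
    · right
      rw [abs_of_nonneg (by linarith : 0 ≤ ‖z‖ / 4 - p)] at h1
      exact ⟨by linarith, by linarith⟩

end Pool.Agent.H56.EH
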