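import Pool.Agent.H56.EH.L3
import Pool.Agent.H75.EH.L1

/-!
# EHP: existence of the last touching level, in the scale of that level
-/

set_option autoImplicit false

open Real MeasureTheory Set Polynomial
open scoped Interval

noncomputable section

namespace Pool.Agent.H56.EH

/-- the situation at the last touching level, in the scale of that level, centre `0` -/
structure Lev (n : ℕ) (a : Fin n → ℂ) (s r₀ : ℝ) : Prop where
  hn : 0 < n
  hs : 0 < s
  /-- `|Q(0)| ≤ e^{-ns}` : the centre belongs to the original lemniscate -/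
  h0 : ∏ j, ‖a j‖ ≤ Real.exp (-(n * s))
  hle : ∀ r, 0 < r → Nz a r ≤ Nv r
  hr₀ : 0 < r₀
  hr₀4 : r₀ < 4
  htouch : Nz a r₀ = Nv r₀
  hlt4 : ∀ j, ‖a j‖ < 4

/-- the roots as a family indexed by `Fin (natDegree f)` -/
theorem exists_roots_fin (f : ℂ[X]) :
    ∃ b : Fin f.natDegree → ℂ, f.roots = Finset.univ.val.map b := by
  have hcard : Multiset.card f.roots = f.natDegree := IsAlgClosed.card_roots_eq_natDegree
  have hlen : f.roots.toList.length = f.natDegree := by rw [Multiset.length_toList, hcard]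
  refine ⟨fun i => f.roots.toList.get (Fin.cast hlen.symm i), ?_⟩
  have h1 : Finset.univ.val.map (fun i : Fin f.natDegree => f.roots.toList.get (Fin.cast hlen.symm i)) =
      ((List.ofFn fun i : Fin f.natDegree => f.roots.toList.get (Fin.cast hlen.symm i) : List ℂ) :
        Multiset ℂ) := by
    rw [Fin.univ_val_map]
  rw [h1]
  have h2 : (List.ofFn fun i : Fin f.natDegree => f.roots.toList.get (Fin.cast hlen.symm i)) =
      f.roots.toList := by
    refine List.ext_get ?_ ?_
    · simp [hlen]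
    · intro k h3 h4
      simp
  rw [h2, Multiset.coe_toList]

/-- **existence of the level** -/
theorem exists_level (f : ℂ[X]) (hf : f.Monic) (hn : f.natDegree ≠ 0) (e : ℂ)
    (he : ‖f.eval e‖ ≤ 1) (hfar : 2 < ‖e - (f.natDegree : ℂ)⁻¹ * f.roots.sum‖) :
    ∃ (a : Fin f.natDegree → ℂ) (s r₀ : ℝ), Lev f.natDegree a s r₀ ∧
      ∀ z : ℂ, f.eval (e + Real.exp s * z) = (Real.exp s : ℂ) ^ f.natDegree * ∏ j, (z - a j) := by
  obtain ⟨b, hb⟩ := exists_roots_fin f
  have hn0 : 0 < f.natDegree := Nat.pos_of_ne_zero hn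
  have heval : ∀ z : ℂ, f.eval z = ∏ j, (z - b j) := by
    intro z
    rw [(IsAlgClosed.splits f).eval_eq_prod_roots_of_monic hf, hb, Multiset.map_map]
    rfl
  set a₀ : Fin f.natDegree → ℂ := fun j => b j - e with ha₀
  have h0 : ∏ j, ‖a₀ j‖ ≤ 1 := by
    rw [heval e, norm_prod] at he
    refine le_trans (le_of_eq ?_) he
    refine Finset.prod_congr rfl fun j _ => ?_
    rw [ha₀, norm_sub_rev]
  have hNN : ∀ r, Pool.Agent.H75.EH.NN f e r = Nz a₀ r := by
    intro r
    unfold Pool.Agent.H75.EH.NN Nz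
    rw [hb, Multiset.map_map]
    rfl
  have hNV : ∀ r, Pool.Agent.H75.EH.NV r = Nv r := fun r => rfl
  have hbad : ∃ r : ℝ, 0 < r ∧ Nv r < Nz a₀ r := by
    by_contra hcon
    push Not at hcon
    have h1 := Pool.Agent.H75.EH.one_disc hn e (fun r hr => by rw [hNN, hNV]; exact hcon r hr)
    have h2 : Pool.Agent.H75.EH.cen f = (f.natDegree : ℂ)⁻¹ * f.roots.sum := by
      unfold Pool.Agent.H75.EH.cen
      rw [div_eq_inv_mul]
    rw [h2] at h1
    linarith
  obtain ⟨s, hs, hle, ⟨r₀, hr0, hr04, htouch⟩, hlt⟩ := last_level hn0 a₀ h0 hbad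
  refine ⟨fun j => (Real.exp (-s) : ℂ) * a₀ j, s, r₀, ?_, ?_⟩
  · refine ⟨hn0, hs, ?_, ?_, hr0, hr04, ?_, ?_⟩
    · simp only [norm_mul, Complex.norm_real, Real.norm_of_nonneg (Real.exp_pos _).le]
      rw [Finset.prod_mul_distrib, Finset.prod_const, Finset.card_univ, Fintype.card_fin,
        ← Real.exp_nat_mul]
      have h1 : (f.natDegree : ℝ) * -s = -((f.natDegree : ℝ) * s) := by ring
      rw [h1]
      exact mul_le_of_le_one_right (Real.exp_pos _).le h0
    · intro r hr
      rw [Nz_scale hn0 a₀ s hr]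
      exact hle r hr
    · rw [Nz_scale hn0 a₀ s hr0]
      exact htouch
    · intro j
      rw [norm_mul, Complex.norm_real, Real.norm_of_nonneg (Real.exp_pos _).le, mul_comm]
      exact hlt j
  · intro z
    rw [heval]
    have h1 : ∀ j, e + (Real.exp s : ℂ) * z - b j =
        (Real.exp s : ℂ) * (z - (Real.exp (-s) : ℂ) * a₀ j) := by
      intro j
      have h2 : (Real.exp s : ℂ) * (Real.exp (-s) : ℂ) = 1 := by
        rw [← Complex.ofReal_mul, ← Real.exp_add]
        simp
      rw [mul_sub, ← mul_assoc, h2, one_mul, ha₀]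
      ring
    rw [Finset.prod_congr rfl fun j _ => h1 j, Finset.prod_mul_distrib, Finset.prod_const,
      Finset.card_univ, Fintype.card_fin]

end Pool.Agent.H56.EH
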