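import Pool.Agent.H56.EH.ST
import Pool.Agent.H56.EH.Lev
import Pool.Agent.H5.EH.C1

/-!
# EHP: `|Q| ≥ 1` on the touching circle
-/

set_option autoImplicit false

open Real MeasureTheory Set intervalIntegral
open scoped Interval

noncomputable section

namespace Pool.Agent.H56.EH

open Pool.Agent.H21.EH (gv gv_nonneg continuous_gv)

theorem gv_circle_cont (r : ℝ) : Continuous fun φ : ℝ => gv (circleMap 0 r φ) :=
  continuous_gv.comp (continuous_circleMap 0 r)

theorem mean_gv {r : ℝ} (hr : 0 < r) :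
    ∫ φ in (0 : ℝ)..2 * π, gv (circleMap 0 r φ) = 2 * π * Nv r := by
  rw [Pool.Agent.H21.EH.int_gv_full hr, EHP.Nv_eq_full hr]
  have hpi := Real.two_pi_pos.ne'
  unfold EHP.pt
  field_simp

/-- arc inequality on the touching circle -/
theorem arc_lower {n : ℕ} (hn : 0 < n) (z : Fin n → ℂ) (hle : ∀ r, 0 < r → Nz z r ≤ Nv r)
    {r : ℝ} (hr : 0 < r) (htouch : Nz z r = Nv r) (φ₁ : ℝ) {η : ℝ} (h0 : 0 ≤ η) (h1 : η ≤ π) :
    ∫ φ in (-η)..η, gv (circleMap 0 r φ) ≤
      ∫ φ in (φ₁ - η)..(φ₁ + η), (1 / (n : ℝ)) * ∑ j, Real.log ‖circleMap 0 r φ - z j‖ := by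
  have e1 := arc_ineq z hr φ₁ h0 h1
  have e2 := EHP.arc_compare hn z le_rfl (fun r hr => by simpa using hle r hr) hr
    (psi := π - η) (by linarith) (by linarith)
  rw [mul_zero, add_zero] at e2
  rw [htouch, ← mean_gv hr] at e1
  have hc := gv_circle_cont r
  have hi : ∀ a b, IntervalIntegrable (fun φ : ℝ => gv (circleMap 0 r φ)) volume a b :=
    fun a b => hc.intervalIntegrable a b
  have e3 : ∫ φ in (-(π - η))..(π - η), gv (-(circleMap 0 r φ)) =
      ∫ φ in η..(2 * π - η), gv (circleMap 0 r φ) := by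
    have h := intervalIntegral.integral_comp_add_right (a := -(π - η)) (b := π - η)
      (fun φ : ℝ => gv (circleMap 0 r φ)) π
    have h2 : ∀ φ : ℝ, -(circleMap 0 r φ) = circleMap 0 r (φ + π) :=
      Pool.Agent.H21.EH.neg_circleMap r
    simp only [h2]
    rw [h]
    congr 1 <;> ring
  have hper : Function.Periodic (fun φ : ℝ => gv (circleMap 0 r φ)) (2 * π) := by
    intro φ
    simp only
    rw [periodic_circleMap]
  have e4 : ∫ φ in (0 : ℝ)..2 * π, gv (circleMap 0 r φ) =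
      (∫ φ in (-η)..η, gv (circleMap 0 r φ)) + ∫ φ in η..(2 * π - η), gv (circleMap 0 r φ) := by
    rw [integral_add_adjacent_intervals (hi _ _) (hi _ _)]
    have := hper.intervalIntegral_add_eq 0 (-η)
    rw [zero_add] at this
    rw [this]
    congr 1
    ring
  linarith

/-- **lower bound for `|Q|` on a circle with equal means** -/
theorem exp_le {n : ℕ} (hn : 0 < n) (a : Fin n → ℂ) (hle : ∀ r, 0 < r → Nz a r ≤ Nv r)
    {r₀ : ℝ} (hr₀ : 0 < r₀) (htouch : Nz a r₀ = Nv r₀) {m : ℝ}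
    (hm : ∀ φ : ℝ, m ≤ gv (circleMap 0 r₀ φ)) (z : ℂ)
    (hz : ‖z‖ = r₀) : Real.exp (n * m) ≤ ∏ j, ‖z - a j‖ := by
  by_contra hcon
  push Not at hcon
  have hn' : (0 : ℝ) < n := by exact_mod_cast hn
  obtain ⟨φ₁, hφ₁⟩ : ∃ φ₁ : ℝ, z = circleMap 0 r₀ φ₁ := by
    refine ⟨Complex.arg z, ?_⟩
    rw [circleMap, zero_add, ← hz]
    exact (Complex.norm_mul_exp_arg_mul_I z).symm
  obtain ⟨q, hq1, hq2⟩ := exists_between hcon
  have hq0 : 0 < q := lt_of_le_of_lt (Finset.prod_nonneg fun j _ => norm_nonneg _) hq1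
  have hc : Continuous fun φ : ℝ => ∏ j, ‖circleMap 0 r₀ φ - a j‖ := by
    refine continuous_finsetProd _ fun j _ => ?_
    exact ((continuous_circleMap 0 r₀).sub continuous_const).norm
  have h1 := (hc.tendsto φ₁).eventually (gt_mem_nhds (show ∏ j, ‖circleMap 0 r₀ φ₁ - a j‖ < q by
    rw [← hφ₁]; exact hq1))
  obtain ⟨δ, hδ, h2⟩ := Metric.eventually_nhds_iff.1 h1
  set η := min (δ / 2) π with hη
  have hη0 : 0 < η := lt_min (by positivity) Real.pi_pos
  have hηπ : η ≤ π := min_le_right _ _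
  have hηδ : η < δ := (min_le_left _ _).trans_lt (by linarith)
  have h3 := arc_lower hn a hle hr₀ htouch φ₁ hη0.le hηπ
  have h4 : ∫ φ in (-η)..η, m ≤ ∫ φ in (-η)..η, gv (circleMap 0 r₀ φ) :=
    intervalIntegral.integral_mono_on (by linarith) (by simp)
      ((gv_circle_cont r₀).intervalIntegrable _ _) fun φ _ => hm φ
  rw [intervalIntegral.integral_const, smul_eq_mul] at h4
  -- upper bound for the integral over the arc
  have hi : IntervalIntegrable
      (fun φ => (1 / (n : ℝ)) * ∑ j, Real.log ‖circleMap 0 r₀ φ - a j‖) volume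
      (φ₁ - η) (φ₁ + η) := by
    refine IntervalIntegrable.const_mul ?_ _
    have := IntervalIntegrable.sum (μ := volume) (a := φ₁ - η) (b := φ₁ + η) Finset.univ
      (f := fun (j : Fin n) φ => Real.log ‖circleMap 0 r₀ φ - a j‖)
      (fun j _ => Pool.Agent.H9.EH.intervalIntegrable_log_sub r₀ (a j) _ _)
    have e : (∑ j : Fin n, fun φ => Real.log ‖circleMap 0 r₀ φ - a j‖) =
        fun φ => ∑ j : Fin n, Real.log ‖circleMap 0 r₀ φ - a j‖ := by
      funext φ
      simp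
    rw [e] at this
    exact this
  have hne : ∀ᵐ φ : ℝ, ∀ j, circleMap 0 r₀ φ - a j ≠ 0 := by
    rw [ae_all_iff]
    intro j
    by_cases h : ∃ b : ℝ, circleMap 0 r₀ b = a j
    · obtain ⟨b, hb⟩ := h
      have hcount : (Set.range fun k : ℤ => b + k * (2 * π)).Countable := Set.countable_range _
      filter_upwards [hcount.ae_notMem volume] with φ hφ h0
      apply hφ
      have h5 : circleMap 0 r₀ φ = circleMap 0 r₀ b := by rw [hb]; exact sub_eq_zero.1 h0
      rw [circleMap, circleMap, zero_add, zero_add] at h5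
      have h6 : Complex.exp (φ * Complex.I) = Complex.exp (b * Complex.I) := by
        refine mul_left_cancel₀ ?_ h5
        exact_mod_cast hr₀.ne'
      rw [Complex.exp_eq_exp_iff_exists_int] at h6
      obtain ⟨k, hk⟩ := h6
      refine ⟨k, ?_⟩
      have h7 : ((b + k * (2 * π) : ℝ) : ℂ) * Complex.I = (φ : ℂ) * Complex.I := by
        rw [hk]; push_cast; ring
      have h8 := mul_right_cancel₀ Complex.I_ne_zero h7
      exact_mod_cast h8
    · exact Filter.Eventually.of_forall fun φ h0 => h ⟨φ, sub_eq_zero.1 h0⟩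
  have h5 : ∫ φ in (φ₁ - η)..(φ₁ + η), (1 / (n : ℝ)) * ∑ j, Real.log ‖circleMap 0 r₀ φ - a j‖ ≤
      ∫ φ in (φ₁ - η)..(φ₁ + η), (1 / (n : ℝ)) * Real.log q := by
    refine intervalIntegral.integral_mono_ae_restrict (by linarith) hi (by simp) ?_
    rw [Filter.EventuallyLE, ae_restrict_iff' measurableSet_Icc]
    filter_upwards [hne] with φ hφ hmem
    refine mul_le_mul_of_nonneg_left ?_ (by positivity)
    rw [← Real.log_prod (fun j _ => (norm_pos_iff.2 (hφ j)).ne')]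
    refine Real.log_le_log (Finset.prod_pos fun j _ => norm_pos_iff.2 (hφ j)) ?_
    refine (h2 ?_).le
    rw [Real.dist_eq, abs_lt]
    constructor <;> linarith [hmem.1, hmem.2]
  have h6 : ∫ φ in (φ₁ - η)..(φ₁ + η), (1 / (n : ℝ)) * Real.log q < (η - -η) * m := by
    rw [intervalIntegral.integral_const, smul_eq_mul]
    have h7 : Real.log q < n * m := by
      rw [Real.log_lt_iff_lt_exp hq0]
      exact hq2
    have h8 : 1 / (n : ℝ) * Real.log q < m := by
      rw [one_div, inv_mul_lt_iff₀ hn']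
      exact h7
    have h9 : φ₁ + η - (φ₁ - η) = η - -η := by ring
    rw [h9]
    exact mul_lt_mul_of_pos_left h8 (by linarith)
  linarith

/-- **`|Q| ≥ 1` on the touching circle** -/
theorem ge_one {n : ℕ} (hn : 0 < n) (a : Fin n → ℂ) (hle : ∀ r, 0 < r → Nz a r ≤ Nv r)
    {r₀ : ℝ} (hr₀ : 0 < r₀) (htouch : Nz a r₀ = Nv r₀) (z : ℂ)
    (hz : ‖z‖ = r₀) : 1 ≤ ∏ j, ‖z - a j‖ := by
  have h := exp_le hn a hle hr₀ htouch (m := 0) (fun φ => gv_nonneg _) z hz
  simpa using h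

theorem Lev.ge_one {n : ℕ} {a : Fin n → ℂ} {s r₀ : ℝ} (H : Lev n a s r₀) (z : ℂ)
    (hz : ‖z‖ = r₀) : 1 ≤ ∏ j, ‖z - a j‖ :=
  Pool.Agent.H56.EH.ge_one H.hn a H.hle H.hr₀ H.htouch z hz

/-- equal means beyond `4` -/
theorem Nz_eq_Nv {n : ℕ} (hn : 0 < n) (a : Fin n → ℂ) (h4 : ∀ j, ‖a j‖ ≤ 4) {r : ℝ} (hr : 4 ≤ r) :
    Nz a r = Nv r := by
  rw [Nz_eq_log hn a (fun j => (h4 j).trans hr), Nv_of_four_le hr]

end Pool.Agent.H56.EH
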