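import Pool.Agent.H56.EH.NV

/-!
# EHP (L3): the last touching level
-/

set_option autoImplicit false

open Real MeasureTheory Set
open scoped Interval

noncomputable section

namespace Pool.Agent.H56.EH

theorem cont_of_log_lip {f : ℝ → ℝ}
    (h1 : ∀ r r' : ℝ, 0 < r → r ≤ r' → f r ≤ f r')
    (h2 : ∀ r r' : ℝ, 0 < r → r ≤ r' → f r' - f r ≤ Real.log r' - Real.log r) :
    ContinuousOn f (Ioi 0) := by
  have key : ∀ r r' : ℝ, 0 < r → 0 < r' → |f r' - f r| ≤ |Real.log r' - Real.log r| := by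
    intro r r' hr hr'
    rcases le_total r r' with h | h
    · rw [abs_of_nonneg (by linarith [h1 r r' hr h]),
        abs_of_nonneg (by linarith [Real.log_le_log hr h])]
      exact h2 r r' hr h
    · rw [abs_sub_comm (f r') (f r), abs_sub_comm (Real.log r') (Real.log r),
        abs_of_nonneg (by linarith [h1 r' r hr' h]),
        abs_of_nonneg (by linarith [Real.log_le_log hr' h])]
      exact h2 r' r hr' h
  intro r hr
  have hlog : ContinuousAt Real.log r := Real.continuousAt_log (ne_of_gt hr)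
  rw [ContinuousWithinAt, Metric.tendsto_nhdsWithin_nhds]
  intro ε hε
  obtain ⟨δ, hδ, h⟩ := Metric.continuousAt_iff.1 hlog ε hε
  refine ⟨δ, hδ, fun x hx hxr => ?_⟩
  rw [Real.dist_eq]
  refine lt_of_le_of_lt (key r x hr hx) ?_
  rw [← Real.dist_eq]
  exact h hxr

theorem Nv_continuousOn : ContinuousOn Nv (Ioi 0) :=
  cont_of_log_lip (fun _ _ => Nv_mono) (fun _ _ => Nv_lip)

theorem Nz_continuousOn {n : ℕ} (hn : 0 < n) (a : Fin n → ℂ) : ContinuousOn (Nz a) (Ioi 0) :=
  cont_of_log_lip (fun _ _ => Nz_mono a) (fun _ _ => Nz_lip hn a)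

theorem Nz_small {n : ℕ} (hn : 0 < n) (a : Fin n → ℂ) (h0 : ∏ j, ‖a j‖ ≤ 1) {ε : ℝ} (hε : 0 < ε) :
    ∃ ρ : ℝ, 0 < ρ ∧ Nz a ρ ≤ ε := by
  have hn' : (0 : ℝ) < n := by exact_mod_cast hn
  have hc : Continuous fun ρ : ℝ => ∏ j, max ρ ‖a j‖ := by fun_prop
  have h1 : (fun ρ : ℝ => ∏ j, max ρ ‖a j‖) 0 < Real.exp (n * ε) := by
    have : ∀ j, max (0 : ℝ) ‖a j‖ = ‖a j‖ := fun j => max_eq_right (norm_nonneg _)
    simp only [this]
    refine lt_of_le_of_lt h0 ?_
    rw [Real.one_lt_exp_iff]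
    positivity
  have h2 := (hc.tendsto 0).eventually (gt_mem_nhds h1)
  obtain ⟨δ, hδ, h3⟩ := Metric.eventually_nhds_iff.1 h2
  refine ⟨δ / 2, by positivity, ?_⟩
  have h4 := h3 (y := δ / 2) (by rw [Real.dist_eq, sub_zero, abs_of_pos (by positivity)]; linarith)
  have hpos : ∀ j, 0 < max (δ / 2) ‖a j‖ := fun j => lt_of_lt_of_le (by positivity) (le_max_left _ _)
  unfold Nz
  rw [← Real.log_prod (fun j _ => (hpos j).ne'), one_div, inv_mul_le_iff₀ hn']
  rw [Real.log_le_iff_le_exp (Finset.prod_pos fun j _ => hpos j)]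
  exact h4.le

theorem Nz_scale {n : ℕ} (hn : 0 < n) (a : Fin n → ℂ) (s : ℝ) {r : ℝ} (hr : 0 < r) :
    Nz (fun j => (Real.exp (-s) : ℂ) * a j) r = Nz a (r * Real.exp s) - s := by
  have hn' : (n : ℝ) ≠ 0 := by
    have : (0 : ℝ) < n := by exact_mod_cast hn
    exact this.ne'
  have h : ∀ j, Real.log (max r ‖(Real.exp (-s) : ℂ) * a j‖) =
      Real.log (max (r * Real.exp s) ‖a j‖) - s := by
    intro j
    have e1 : ‖(Real.exp (-s) : ℂ) * a j‖ = Real.exp (-s) * ‖a j‖ := by
      rw [norm_mul, Complex.norm_real, Real.norm_of_nonneg (Real.exp_pos _).le]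
    have e2 : max r (Real.exp (-s) * ‖a j‖) = Real.exp (-s) * max (r * Real.exp s) ‖a j‖ := by
      rw [mul_max_of_nonneg _ _ (Real.exp_pos _).le]
      congr 1
      rw [Real.exp_neg]
      field_simp
    rw [e1, e2, Real.log_mul (Real.exp_pos _).ne', Real.log_exp]
    · ring
    · exact (lt_of_lt_of_le (by positivity) (le_max_left _ _)).ne'
  unfold Nz
  simp only [h]
  rw [Finset.sum_sub_distrib, Finset.sum_const, Finset.card_univ, Fintype.card_fin, nsmul_eq_mul]
  field_simp

/-- **the last touching level** -/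
theorem last_level {n : ℕ} (hn : 0 < n) (a : Fin n → ℂ) (h0 : ∏ j, ‖a j‖ ≤ 1)
    (hbad : ∃ r : ℝ, 0 < r ∧ Nv r < Nz a r) :
    ∃ s : ℝ, 0 < s ∧ (∀ r : ℝ, 0 < r → Nz a (r * Real.exp s) - s ≤ Nv r) ∧
      (∃ r₀ : ℝ, 0 < r₀ ∧ r₀ < 4 ∧ Nz a (r₀ * Real.exp s) - s = Nv r₀) ∧
      ∀ j, ‖a j‖ * Real.exp (-s) < 4 := by
  have hn' : (0 : ℝ) < n := by exact_mod_cast hn
  -- an upper bound for the moduli
  obtain ⟨A, hA1, hA⟩ : ∃ A : ℝ, 1 ≤ A ∧ ∀ j, ‖a j‖ ≤ A := by
    refine ⟨1 + ∑ j, ‖a j‖, ?_, fun j => ?_⟩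
    · have : 0 ≤ ∑ j, ‖a j‖ := Finset.sum_nonneg fun j _ => norm_nonneg _
      linarith
    · have := Finset.single_le_sum (f := fun j => ‖a j‖) (fun j _ => norm_nonneg _) (Finset.mem_univ j)
      linarith
  have hA0 : 0 < A := by linarith
  set T : Set ℝ := {s : ℝ | 0 ≤ s ∧ ∀ r : ℝ, 0 < r → Nz a (r * Real.exp s) - s ≤ Nv r} with hT
  have hlogA : 0 ≤ Real.log A := Real.log_nonneg hA1
  have hne : Real.log A ∈ T := by
    refine ⟨hlogA, fun r hr => ?_⟩
    rw [Real.exp_log hA0]
    rcases le_total A (r * A) with h | h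
    · rw [Nz_eq_log hn a (fun j => (hA j).trans h), Real.log_mul hr.ne' hA0.ne']
      have := log_le_Nv hr
      linarith
    · have h1 : Nz a (r * A) ≤ Nz a A := Nz_mono a (by positivity) h
      rw [Nz_eq_log hn a hA] at h1
      have := Nv_nonneg hr
      linarith
  have hbdd : BddBelow T := ⟨0, fun s hs => hs.1⟩
  set s := sInf T with hs
  have hs0 : 0 ≤ s := le_csInf ⟨_, hne⟩ fun t ht => ht.1
  -- s belongs to T
  have hsT : ∀ r : ℝ, 0 < r → Nz a (r * Real.exp s) - s ≤ Nv r := by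
    intro r hr
    refine le_of_forall_pos_le_add fun ε hε => ?_
    obtain ⟨t, ht, hts⟩ := exists_lt_of_csInf_lt ⟨_, hne⟩ (show sInf T < s + ε by linarith)
    have hst : s ≤ t := csInf_le hbdd ht
    have h1 := ht.2 r hr
    have h2 : Nz a (r * Real.exp s) ≤ Nz a (r * Real.exp t) :=
      Nz_mono a (by positivity) (mul_le_mul_of_nonneg_left (Real.exp_le_exp.2 hst) hr.le)
    linarith
  have hspos : 0 < s := by
    rcases hs0.lt_or_eq with h | h
    · exact h
    · exfalso
      obtain ⟨r, hr, hb⟩ := hbad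
      have := hsT r hr
      rw [← h, Real.exp_zero, mul_one, sub_zero] at this
      linarith
  -- all zeros are inside
  have hlt : ∀ j, ‖a j‖ * Real.exp (-s) < 4 := by
    intro j
    by_contra hcon
    push Not at hcon
    have hb : 0 < ‖a j‖ := by
      by_contra h
      have : ‖a j‖ = 0 := le_antisymm (not_lt.1 h) (norm_nonneg _)
      rw [this, zero_mul] at hcon
      linarith
    have hbs : Real.log 4 ≤ Real.log ‖a j‖ - s := by
      have := Real.log_le_log (by norm_num) hcon
      rw [Real.log_mul hb.ne' (Real.exp_pos _).ne', Real.log_exp] at this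
      linarith
    set α := π / (2 * n) with hα
    have hπ := Real.pi_pos
    have hα0 : 0 < α := by positivity
    have hn1 : (1 : ℝ) ≤ n := by exact_mod_cast hn
    have hα1 : α ≤ π / 2 := by
      rw [hα]
      apply div_le_div_of_nonneg_left hπ.le (by norm_num)
      linarith
    have hcos1 : Real.cos α < 1 := by
      have := Real.cos_lt_cos_of_nonneg_of_le_pi le_rfl (by linarith : α ≤ π) hα0
      rwa [Real.cos_zero] at this
    have hcos0 : 0 ≤ Real.cos α := Real.cos_nonneg_of_mem_Icc ⟨by linarith, hα1⟩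
    set r := 2 + 2 * Real.cos α with hr
    have hr0 : 0 < r := by linarith
    have hr4 : r < 4 := by linarith
    have harc : Real.arccos (r / 2 - 1) = α := by
      have : r / 2 - 1 = Real.cos α := by rw [hr]; ring
      rw [this]
      exact Real.arccos_cos hα0.le (by linarith)
    have h1 := Nv_sub_log_le hr0 hr4.le
    rw [harc] at h1
    have h2 := hsT r hr0
    have hlog : Real.log r < Real.log 4 := Real.log_lt_log hr0 hr4
    -- lower bound for Nz
    have h3 : Real.log r + s + (1 / n) * (Real.log 4 - Real.log r) ≤ Nz a (r * Real.exp s) := by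
      unfold Nz
      have h4 : ∑ i, (Real.log r + s + if i = j then (Real.log 4 - Real.log r) else 0) ≤
          ∑ i, Real.log (max (r * Real.exp s) ‖a i‖) := by
        refine Finset.sum_le_sum fun i _ => ?_
        have hre : Real.log (r * Real.exp s) = Real.log r + s := by
          rw [Real.log_mul hr0.ne' (Real.exp_pos _).ne', Real.log_exp]
        have hmax : 0 < max (r * Real.exp s) ‖a i‖ := lt_of_lt_of_le (by positivity) (le_max_left _ _)
        by_cases hij : i = j
        · subst hij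
          rw [if_pos rfl]
          have : Real.log ‖a i‖ ≤ Real.log (max (r * Real.exp s) ‖a i‖) :=
            Real.log_le_log hb (le_max_right _ _)
          linarith
        · rw [if_neg hij, add_zero, ← hre]
          exact Real.log_le_log (by positivity) (le_max_left _ _)
      rw [Finset.sum_add_distrib, Finset.sum_const, Finset.card_univ, Fintype.card_fin, nsmul_eq_mul,
        Finset.sum_ite_eq' Finset.univ j, if_pos (Finset.mem_univ j)] at h4
      have h5 : Real.log r + s + (1 / n) * (Real.log 4 - Real.log r) =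
          1 / n * (n * (Real.log r + s) + (Real.log 4 - Real.log r)) := by
        field_simp
      rw [h5]
      exact mul_le_mul_of_nonneg_left h4 (by positivity)
    have h6 : 1 / n * (Real.log 4 - Real.log r) ≤ α / π * (Real.log 4 - Real.log r) := by linarith
    have h7 : (1 : ℝ) / n ≤ α / π := le_of_mul_le_mul_right h6 (by linarith)
    have h8 : α / π = 1 / n / 2 := by
      rw [hα]
      field_simp
    rw [h8] at h7
    have : 0 < (1 : ℝ) / n := by positivity
    linarith
  refine ⟨s, hspos, hsT, ?_, hlt⟩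
  -- touching
  by_contra hcon
  push Not at hcon
  -- a radius r₂ < 4 beyond all zeros, uniformly for s' near s
  obtain ⟨r₂, hr20, hr24, δ₁, hδ₁, hr2⟩ : ∃ r₂ : ℝ, 0 < r₂ ∧ r₂ < 4 ∧ ∃ δ₁ : ℝ, 0 < δ₁ ∧
      ∀ t : ℝ, s - δ₁ ≤ t → ∀ j, ‖a j‖ ≤ r₂ * Real.exp t := by
    obtain ⟨M, hM0, hM4, hM⟩ : ∃ M : ℝ, 0 < M ∧ M < 4 ∧ ∀ j, ‖a j‖ * Real.exp (-s) ≤ M := by
      have hne' : (Finset.univ : Finset (Fin n)).Nonempty := ⟨⟨0, hn⟩, Finset.mem_univ _⟩
      refine ⟨max 1 (Finset.univ.sup' hne' fun j => ‖a j‖ * Real.exp (-s)), ?_, ?_, fun j => ?_⟩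
      · exact lt_of_lt_of_le one_pos (le_max_left _ _)
      · refine max_lt (by norm_num) ?_
        rw [Finset.sup'_lt_iff]
        exact fun j _ => hlt j
      · exact (Finset.le_sup' (fun j => ‖a j‖ * Real.exp (-s)) (Finset.mem_univ j)).trans (le_max_right _ _)
    refine ⟨(M + 4) / 2, by linarith, by linarith, Real.log ((M + 4) / 2 / M), ?_, ?_⟩
    · refine Real.log_pos ?_
      rw [one_lt_div hM0]
      linarith
    · intro t ht j
      have h1 : ‖a j‖ ≤ M * Real.exp s := by
        have := hM j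
        rw [Real.exp_neg, ← div_eq_mul_inv, div_le_iff₀ (Real.exp_pos _)] at this
        exact this
      have h2 : Real.exp s ≤ Real.exp t * ((M + 4) / 2 / M) := by
        have h3 : 0 < (M + 4) / 2 / M := by positivity
        rw [← Real.exp_log h3, ← Real.exp_add]
        exact Real.exp_le_exp.2 (by linarith)
      refine h1.trans ((mul_le_mul_of_nonneg_left h2 hM0.le).trans (le_of_eq ?_))
      field_simp
  obtain ⟨ρ, hρ0, hρ⟩ := Nz_small hn a h0 (show (0 : ℝ) < s / 4 by positivity)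
  set ε₀ := ρ * Real.exp (-s) with hε₀
  have hε0 : 0 < ε₀ := by positivity
  -- compactness
  obtain ⟨η, hη, hηK⟩ : ∃ η : ℝ, 0 < η ∧ ∀ r : ℝ, ε₀ ≤ r → r ≤ r₂ →
      Nz a (r * Real.exp s) - s - Nv r ≤ -η := by
    by_cases hle : ε₀ ≤ r₂
    · have hcont : ContinuousOn (fun r => Nz a (r * Real.exp s) - s - Nv r) (Icc ε₀ r₂) := by
        refine ContinuousOn.sub (ContinuousOn.sub ?_ continuousOn_const) ?_
        · refine (Nz_continuousOn hn a).comp (by fun_prop) ?_
          intro r hr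
          have : 0 < r := hε0.trans_le hr.1
          exact mul_pos this (Real.exp_pos _)
        · exact Nv_continuousOn.mono fun r hr => hε0.trans_le hr.1
      obtain ⟨r₁, hr₁, hmax⟩ := isCompact_Icc.exists_isMaxOn (nonempty_Icc.2 hle) hcont
      refine ⟨-(Nz a (r₁ * Real.exp s) - s - Nv r₁), ?_, fun r h1 h2 => ?_⟩
      · have hr10 : 0 < r₁ := hε0.trans_le hr₁.1
        have h1 := hsT r₁ hr10
        have h2 := hcon r₁ hr10 (hr₁.2.trans_lt hr24)
        have h3 := lt_of_le_of_ne h1 h2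
        linarith
      · have h3 : Nz a (r * Real.exp s) - s - Nv r ≤ Nz a (r₁ * Real.exp s) - s - Nv r₁ :=
          hmax (show r ∈ Icc ε₀ r₂ from ⟨h1, h2⟩)
        linarith
    · exact ⟨1, one_pos, fun r h1 h2 => absurd (h1.trans h2) hle⟩
  -- a smaller level still works
  obtain ⟨δ, hδ, hδ1, hδ2, hδ3⟩ : ∃ δ : ℝ, 0 < δ ∧ δ ≤ δ₁ ∧ δ ≤ η ∧ δ ≤ s / 2 :=
    ⟨min δ₁ (min η (s / 2)), by positivity, min_le_left _ _,
      (min_le_right _ _).trans (min_le_left _ _), (min_le_right _ _).trans (min_le_right _ _)⟩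
  have hmem : s - δ ∈ T := by
    refine ⟨by linarith, fun r hr => ?_⟩
    have hre : 0 < r * Real.exp (s - δ) := by positivity
    rcases le_total r₂ r with h | h
    · have h1 : ∀ j, ‖a j‖ ≤ r * Real.exp (s - δ) := fun j =>
        (hr2 (s - δ) (by linarith) j).trans (mul_le_mul_of_nonneg_right h (Real.exp_pos _).le)
      rw [Nz_eq_log hn a h1, Real.log_mul hr.ne' (Real.exp_pos _).ne', Real.log_exp]
      have := log_le_Nv hr
      linarith
    · rcases le_total ε₀ r with h' | h'
      · have h1 := hηK r h' h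
        have h2 : Nz a (r * Real.exp (s - δ)) ≤ Nz a (r * Real.exp s) :=
          Nz_mono a hre (mul_le_mul_of_nonneg_left (Real.exp_le_exp.2 (by linarith)) hr.le)
        linarith
      · have h1 : Nz a (r * Real.exp (s - δ)) ≤ Nz a ρ := by
          refine Nz_mono a hre ?_
          refine (mul_le_mul h' (Real.exp_le_exp.2 (by linarith : s - δ ≤ s)) (Real.exp_pos _).le
            hε0.le).trans (le_of_eq ?_)
          rw [hε₀, Real.exp_neg]
          field_simp
        have := Nv_nonneg hr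
        linarith
  have := csInf_le hbdd hmem
  linarith

end Pool.Agent.H56.EH
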