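import Pool.Agent.H56.EH.L3
import Pool.Agent.H9.EH.Asm
import Pool.Agent.H21.EH.ModB

/-!
# EHP (ST): strict positivity on the touching circle, part A
-/

set_option autoImplicit false

open Real MeasureTheory Set intervalIntegral
open scoped Interval

noncomputable section

namespace Pool.Agent.H56.EH

/-- Jensen on a circle -/
theorem int_log_circle {r : ℝ} (hr : 0 < r) (w : ℂ) :
    ∫ φ in (0 : ℝ)..2 * π, Real.log ‖circleMap 0 r φ - w‖ = 2 * π * Real.log (max r ‖w‖) := by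
  have h := circleAverage_log_norm_sub_const_eq_log_radius_add_posLog (a := w) (c := 0) hr.ne'
  rw [circleAverage, smul_eq_mul, zero_sub, norm_neg] at h
  have hpi : (2 * π) ≠ 0 := by positivity
  have h2 : Real.log r + log⁺ (r⁻¹ * ‖w‖) = Real.log (max r ‖w‖) := by
    rcases le_total ‖w‖ r with h3 | h3
    · rw [max_eq_left h3, (posLog_eq_zero_iff _).2, add_zero]
      rw [abs_of_nonneg (by positivity), inv_mul_le_iff₀ hr, mul_one]
      exact h3
    · have h4 : 1 ≤ r⁻¹ * ‖w‖ := by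
        rw [le_inv_mul_iff₀ hr, mul_one]
        exact h3
      have h5 : 0 < ‖w‖ := by linarith
      rw [max_eq_right h3, posLog_eq_log (by rwa [abs_of_nonneg (by positivity)]),
        Real.log_mul (inv_pos.2 hr).ne' h5.ne', Real.log_inv]
      ring
  rw [h2] at h
  rw [← h]
  field_simp

theorem int_mean_circle {n : ℕ} (z : Fin n → ℂ) {r : ℝ} (hr : 0 < r) :
    ∫ φ in (0 : ℝ)..2 * π, (1 / (n : ℝ)) * ∑ j, Real.log ‖circleMap 0 r φ - z j‖ =
      2 * π * Nz z r := by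
  rw [intervalIntegral.integral_const_mul, intervalIntegral.integral_finsetSum]
  · simp only [int_log_circle hr]
    unfold Nz
    rw [← Finset.mul_sum]
    ring
  · intro j _
    exact Pool.Agent.H9.EH.intervalIntegrable_log_sub r (z j) _ _

/-- indicator of the complement of the arc of half width `η` at `φ₁` -/
def coArc (φ₁ η : ℝ) : ℝ → ℝ := ({φ | Real.cos (φ - φ₁) ≤ Real.cos η} : Set ℝ).indicator fun _ => 1

theorem coArc_meas (φ₁ η : ℝ) : Measurable (coArc φ₁ η) := by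
  refine measurable_const.indicator (measurableSet_le ?_ measurable_const)
  fun_prop

theorem coArc_nonneg (φ₁ η φ : ℝ) : 0 ≤ coArc φ₁ η φ := indicator_nonneg (fun _ _ => zero_le_one) φ

theorem coArc_le (φ₁ η φ : ℝ) : coArc φ₁ η φ ≤ 1 := indicator_le_self' (fun _ _ => zero_le_one) φ

theorem coArc_per (φ₁ η : ℝ) : Function.Periodic (coArc φ₁ η) (2 * π) := by
  intro φ
  have h : Real.cos (φ + 2 * π - φ₁) = Real.cos (φ - φ₁) := by
    rw [show φ + 2 * π - φ₁ = φ - φ₁ + 2 * π by ring, Real.cos_add_two_pi]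
  by_cases h1 : Real.cos (φ - φ₁) ≤ Real.cos η
  · have h2 : Real.cos (φ + 2 * π - φ₁) ≤ Real.cos η := by rw [h]; exact h1
    simp [coArc, h1, h2]
  · have h2 : ¬ Real.cos (φ + 2 * π - φ₁) ≤ Real.cos η := by rw [h]; exact h1
    simp [coArc, h1, h2]

/-- integration against `coArc` removes the arc -/
theorem int_coArc (φ₁ : ℝ) {η : ℝ} (h0 : 0 ≤ η) (h1 : η ≤ π) {h : ℝ → ℝ}
    (hper : Function.Periodic h (2 * π)) (hi : ∀ a b, IntervalIntegrable h volume a b) :
    ∫ φ in (0 : ℝ)..2 * π, coArc φ₁ η φ * h φ =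
      (∫ φ in (0 : ℝ)..2 * π, h φ) - ∫ φ in (φ₁ - η)..(φ₁ + η), h φ := by
  have hχ : ∀ a b, IntervalIntegrable (fun φ => coArc φ₁ η φ * h φ) volume a b := fun a b =>
    Pool.Agent.H9.EH.intervalIntegrable_chi_mul (coArc_meas _ _) (coArc_nonneg _ _) (coArc_le _ _) (hi a b)
  have hper2 : Function.Periodic (fun φ => coArc φ₁ η φ * h φ) (2 * π) := by
    intro φ
    simp only
    rw [coArc_per φ₁ η φ, hper φ]
  have e1 : ∫ φ in (0 : ℝ)..2 * π, coArc φ₁ η φ * h φ =
      ∫ φ in (φ₁ - π)..(φ₁ + π), coArc φ₁ η φ * h φ := by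
    have := hper2.intervalIntegral_add_eq 0 (φ₁ - π)
    rw [zero_add] at this
    rw [this]
    congr 1
    ring
  have e2 : ∫ φ in (0 : ℝ)..2 * π, h φ = ∫ φ in (φ₁ - π)..(φ₁ + π), h φ := by
    have := hper.intervalIntegral_add_eq 0 (φ₁ - π)
    rw [zero_add] at this
    rw [this]
    congr 1
    ring
  rw [e1, e2, ← integral_add_adjacent_intervals (hχ (φ₁ - π) (φ₁ - η)) (hχ (φ₁ - η) (φ₁ + π)),
    ← integral_add_adjacent_intervals (hχ (φ₁ - η) (φ₁ + η)) (hχ (φ₁ + η) (φ₁ + π)),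
    ← integral_add_adjacent_intervals (hi (φ₁ - π) (φ₁ - η)) (hi (φ₁ - η) (φ₁ + π)),
    ← integral_add_adjacent_intervals (hi (φ₁ - η) (φ₁ + η)) (hi (φ₁ + η) (φ₁ + π))]
  have a1 : ∫ φ in (φ₁ - π)..(φ₁ - η), coArc φ₁ η φ * h φ = ∫ φ in (φ₁ - π)..(φ₁ - η), h φ := by
    refine integral_congr fun φ hφ => ?_
    rw [uIcc_of_le (by linarith)] at hφ
    have : Real.cos (φ - φ₁) ≤ Real.cos η := by
      rw [← Real.cos_neg (φ - φ₁)]
      exact Real.cos_le_cos_of_nonneg_of_le_pi h0 (by linarith [hφ.1]) (by linarith [hφ.2])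
    simp [coArc, this]
  have a2 : ∫ φ in (φ₁ + η)..(φ₁ + π), coArc φ₁ η φ * h φ = ∫ φ in (φ₁ + η)..(φ₁ + π), h φ := by
    refine integral_congr fun φ hφ => ?_
    rw [uIcc_of_le (by linarith)] at hφ
    have : Real.cos (φ - φ₁) ≤ Real.cos η :=
      Real.cos_le_cos_of_nonneg_of_le_pi h0 (by linarith [hφ.2]) (by linarith [hφ.1])
    simp [coArc, this]
  have a3 : ∫ φ in (φ₁ - η)..(φ₁ + η), coArc φ₁ η φ * h φ = 0 := by
    rw [integral_of_le (by linarith), integral_Ioc_eq_integral_Ioo]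
    have : ∀ φ ∈ Ioo (φ₁ - η) (φ₁ + η), coArc φ₁ η φ * h φ = (fun _ => (0 : ℝ)) φ := by
      intro φ hφ
      have h3 : ¬ Real.cos (φ - φ₁) ≤ Real.cos η := by
        rw [not_le, ← Real.cos_abs (φ - φ₁)]
        refine Real.cos_lt_cos_of_nonneg_of_le_pi (abs_nonneg _) h1 ?_
        rw [abs_lt]
        constructor <;> linarith [hφ.1, hφ.2]
      simp [coArc, h3]
    rw [setIntegral_congr_fun measurableSet_Ioo this]
    simp
  rw [a1, a2, a3]
  ring

/-- the mass of the complement -/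
theorem int_coArc_one (φ₁ : ℝ) {η : ℝ} (h0 : 0 ≤ η) (h1 : η ≤ π) :
    ∫ φ in (0 : ℝ)..2 * π, coArc φ₁ η φ = 2 * (π - η) := by
  have h := int_coArc φ₁ h0 h1 (h := fun _ => (1 : ℝ)) (fun _ => rfl) (fun a b => by simp)
  simp only [mul_one] at h
  rw [h]
  simp only [intervalIntegral.integral_const, smul_eq_mul, mul_one]
  ring

open Pool.Agent.H9.EH in
/-- **arc inequality** -/
theorem arc_ineq {n : ℕ} (z : Fin n → ℂ) {r : ℝ} (hr : 0 < r) (φ₁ : ℝ) {η : ℝ} (h0 : 0 ≤ η)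
    (h1 : η ≤ π) :
    2 * π * Nz z r - (1 / (n : ℝ)) * ∑ j, J r (π - η) ‖z j‖ ≤
      ∫ φ in (φ₁ - η)..(φ₁ + η), (1 / (n : ℝ)) * ∑ j, Real.log ‖circleMap 0 r φ - z j‖ := by
  have hi : ∀ a b, IntervalIntegrable
      (fun φ => (1 / (n : ℝ)) * ∑ j, Real.log ‖circleMap 0 r φ - z j‖) volume a b := by
    intro a b
    refine IntervalIntegrable.const_mul ?_ _
    have := IntervalIntegrable.sum (μ := volume) (a := a) (b := b) Finset.univ
      (f := fun (j : Fin n) φ => Real.log ‖circleMap 0 r φ - z j‖)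
      (fun j _ => intervalIntegrable_log_sub r (z j) _ _)
    have e : (∑ j : Fin n, fun φ => Real.log ‖circleMap 0 r φ - z j‖) =
        fun φ => ∑ j : Fin n, Real.log ‖circleMap 0 r φ - z j‖ := by
      funext φ
      simp
    rw [e] at this
    exact this
  have hper : Function.Periodic
      (fun φ => (1 / (n : ℝ)) * ∑ j, Real.log ‖circleMap 0 r φ - z j‖) (2 * π) := by
    intro φ
    simp only
    rw [periodic_circleMap]
  have e1 := int_coArc φ₁ h0 h1 hper hi
  have e2 := lemR_sum z r hr (π - η) (by linarith) (by linarith) (coArc φ₁ η) (coArc_meas _ _)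
    (coArc_nonneg _ _) (coArc_le _ _) (coArc_per _ _) (int_coArc_one φ₁ h0 h1)
  rw [int_mean_circle z hr] at e1
  linarith

end Pool.Agent.H56.EH
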